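import Pool.Agent.Helper96.EA3.V7c

/-!
# Project EA, part 3 (MP_b6b996_nt), block V7: one step with `2k`-th moments
-/

set_option autoImplicit false

namespace Pool.Agent.Helper51.EA

open Finset Pool.Agent.Helper5.RM

/-- V7 -/
theorem step_k (k : ℕ) (hk : 1 ≤ k) (S : Finset ℕ) (t t' : ℕ → ℕ → ℝ) (I : Finset ℕ) (w : ℕ → ℝ) (nr : ℕ → ℕ → Prop) (M : ℝ)
    (τ ℓ s ϑ Wm : ℝ) (hw0 : ∀ j ∈ I, 0 ≤ w j) (hwm : ∀ j ∈ I, w j ≤ Wm) (hW : 0 < ∑ j ∈ I, w j)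
    (hM : ∀ j ∈ I, ∀ Q ⊆ I, (∀ i ∈ Q, nr j i) → (Q.card : ℝ) ≤ M)
    (hτ0 : 0 < τ) (hτ1 : k * τ * (ℓ + 1) ≤ 1 / 1000) (hℓ : 0 ≤ ℓ)
    (ht : ∀ j ∈ I, ∀ p ∈ S, |t j p| ≤ τ ∧ |t' j p| ≤ τ)
    (hv : ∀ j ∈ I, |∑ p ∈ S, t j p ^ 2 - ℓ| ≤ τ ∧ |∑ p ∈ S, t' j p ^ 2 - ℓ| ≤ τ ∧ |∑ p ∈ S, t j p * t' j p| ≤ τ)
    (hf : ∀ j ∈ I, ∀ i ∈ I, ¬ nr j i → |∑ p ∈ S, t j p * t i p| ≤ τ ∧ |∑ p ∈ S, t j p * t' i p| ≤ τ ∧
      |∑ p ∈ S, t' j p * t i p| ≤ τ ∧ |∑ p ∈ S, t' j p * t' i p| ≤ τ)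
    (hϑ0 : 0 < ϑ) (hϑ1 : ϑ ≤ 1) (hs : ϑ ^ 2 * ℓ / 2 + 6 ≤ ϑ * s) :
    pr S (fun T => ∑ j ∈ I, (if |∑ p ∈ S, sg T p * t j p - ℓ| ≤ s ∧ |∑ p ∈ S, sg T p * t' j p| ≤ s then
        w j * ∏ p ∈ S, (1 + sg T p * t j p) else 0) < (1 / 4) * ∑ j ∈ I, w j) ≤
      5 * (4 * (20 * k * τ + M * Wm * Real.exp (10 * k * (ℓ + 1)) / ∑ j ∈ I, w j)) ^ k := by
  classical
  have hk1 : (1 : ℝ) ≤ k := by exact_mod_cast hk
  have hkτ : k * τ ≤ 1 / 1000 := by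
    have h1 : k * τ * 1 ≤ k * τ * (ℓ + 1) := mul_le_mul_of_nonneg_left (by linarith) (by positivity)
    linarith
  have hτ : τ ≤ 1 / 1000 := by
    have h1 : 1 * τ ≤ k * τ := mul_le_mul_of_nonneg_right hk1 hτ0.le
    linarith
  obtain ⟨j0, hj0, hj0'⟩ : ∃ j ∈ I, 0 < w j := by
    by_contra hcon
    push Not at hcon
    exact absurd hW (not_lt.2 (Finset.sum_nonpos hcon))
  have hWm : 0 ≤ Wm := (hw0 j0 hj0).trans (hwm j0 hj0)
  have hM0 : 0 ≤ M := by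
    have := hM j0 hj0 ∅ (Finset.empty_subset _) (fun i hi => absurd hi (Finset.notMem_empty i))
    simpa using this
  obtain ⟨W, hWd⟩ : ∃ W : ℝ, W = ∑ j ∈ I, w j := ⟨_, rfl⟩
  obtain ⟨E, hE⟩ : ∃ E : ℝ, E = 20 * k * τ + M * Wm * Real.exp (10 * k * (ℓ + 1)) / ∑ j ∈ I, w j := ⟨_, rfl⟩
  have hE0 : 0 ≤ E := by
    rw [hE]
    positivity
  have hEE : E ^ k ≤ (4 * E) ^ k := pow_le_pow_left₀ hE0 (by linarith) k
  -- the untilted sum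
  have hZ0 : pr S (fun T => ∑ j ∈ I, w j * ∏ p ∈ S, (1 + sg T p * t j p) ≤ 1 / 2 * W) ≤ (4 * E) ^ k := by
    obtain ⟨h1, _⟩ := block96 k hk S t (fun _ _ => 0) I w nr M τ ℓ Wm 1 hw0 hwm hW hM hτ0 hτ1 hℓ
      (fun j hj p hp => (ht j hj p hp).1) (fun j hj p hp => by simpa using hτ0.le)
      (fun j hj => by
        have := (abs_le.1 (hv j hj).1).2
        linarith)
      (fun j hj => by
        simp only [ne_eq, OfNat.ofNat_ne_zero, not_false_eq_true, zero_pow, Finset.sum_const_zero]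
        linarith)
      (fun j hj i hi hn => by
        simp only [add_zero]
        linarith [(hf j hj i hi hn).1])
      (fun j hj => by simp) (1 / 2) (by norm_num)
    rw [← hE] at h1
    have e1 : (1 : ℝ) ^ 2 * E / (1 / 2) ^ 2 = 4 * E := by ring
    rw [e1] at h1
    refine le_trans (pr_mono fun T _ hT => ?_) h1
    have e2 : ∑ j ∈ I, w j * ∏ p ∈ S, ((1 + sg T p * t j p) * Real.exp (sg T p * 0)) =
        ∑ j ∈ I, w j * ∏ p ∈ S, (1 + sg T p * t j p) := by simp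
    have e3 : ∑ j ∈ I, w j * ∏ p ∈ S, Af (t j p) 0 = ∑ j ∈ I, w j := by
      simp [Af]
    rw [e2, e3, ← hWd, abs_sub_comm]
    refine le_trans ?_ (le_abs_self _)
    linarith
  have htilt := fun α β (hαβ : |α| + |β| ≤ 1) => tilt96 k hk S t t' I w nr M τ ℓ ϑ Wm hw0 hwm hW hM hτ0 hτ1 hℓ ht hv hf
    hϑ0 hϑ1 α β hαβ
  have h1 := htilt 1 0 (by norm_num)
  have h2 := htilt (-1) 0 (by norm_num)
  have h3 := htilt 0 1 (by norm_num)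
  have h4 := htilt 0 (-1) (by norm_num)
  rw [← hE, ← hWd] at h1 h2 h3 h4
  rw [← hE, ← hWd]
  -- the union bound
  have hsub : ∀ T ⊆ S, ∑ j ∈ I, (if |∑ p ∈ S, sg T p * t j p - ℓ| ≤ s ∧ |∑ p ∈ S, sg T p * t' j p| ≤ s then
        w j * ∏ p ∈ S, (1 + sg T p * t j p) else 0) < (1 / 4) * W →
      ((((∑ j ∈ I, w j * ∏ p ∈ S, (1 + sg T p * t j p) ≤ 1 / 2 * W) ∨
      (2 * Real.exp (ϑ ^ 2 * ℓ / 2 + ϑ * 1 * ℓ + 1 / 50) * W ≤ ∑ j ∈ I, w j * ((∏ p ∈ S, (1 + sg T p * t j p)) *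
        Real.exp (ϑ * (1 * ∑ p ∈ S, sg T p * t j p + 0 * ∑ p ∈ S, sg T p * t' j p))))) ∨
      (2 * Real.exp (ϑ ^ 2 * ℓ / 2 + ϑ * (-1) * ℓ + 1 / 50) * W ≤ ∑ j ∈ I, w j * ((∏ p ∈ S, (1 + sg T p * t j p)) *
        Real.exp (ϑ * ((-1) * ∑ p ∈ S, sg T p * t j p + 0 * ∑ p ∈ S, sg T p * t' j p))))) ∨
      (2 * Real.exp (ϑ ^ 2 * ℓ / 2 + ϑ * 0 * ℓ + 1 / 50) * W ≤ ∑ j ∈ I, w j * ((∏ p ∈ S, (1 + sg T p * t j p)) *
        Real.exp (ϑ * (0 * ∑ p ∈ S, sg T p * t j p + 1 * ∑ p ∈ S, sg T p * t' j p))))) ∨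
      (2 * Real.exp (ϑ ^ 2 * ℓ / 2 + ϑ * 0 * ℓ + 1 / 50) * W ≤ ∑ j ∈ I, w j * ((∏ p ∈ S, (1 + sg T p * t j p)) *
        Real.exp (ϑ * (0 * ∑ p ∈ S, sg T p * t j p + (-1) * ∑ p ∈ S, sg T p * t' j p)))) := by
    intro T _ hT
    by_contra hcon
    push Not at hcon
    obtain ⟨⟨⟨⟨k0, k1⟩, k2⟩, k3⟩, k4⟩ := hcon
    obtain ⟨X, hX⟩ : ∃ X : ℕ → ℝ, X = fun j => ∑ p ∈ S, sg T p * t j p := ⟨_, rfl⟩
    obtain ⟨X', hX'⟩ : ∃ X' : ℕ → ℝ, X' = fun j => ∑ p ∈ S, sg T p * t' j p := ⟨_, rfl⟩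
    obtain ⟨P, hP⟩ : ∃ P : ℕ → ℝ, P = fun j => w j * ∏ p ∈ S, (1 + sg T p * t j p) := ⟨_, rfl⟩
    have hP0 : ∀ j ∈ I, 0 ≤ P j := by
      intro j hj
      rw [hP]
      refine mul_nonneg (hw0 j hj) (Finset.prod_nonneg fun p hp => ?_)
      have g1 : |sg T p * t j p| ≤ τ := by
        rw [abs_mul, abs_sg, one_mul]
        exact (ht j hj p hp).1
      have g2 := (abs_le.1 g1).1
      linarith
    have r0 : ∑ j ∈ I, (if |X j - ℓ| ≤ s ∧ |X' j| ≤ s then P j else 0) < 1 / 4 * W := by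
      rw [hX, hX', hP]
      exact hT
    have r1 : ∑ j ∈ I, P j * Real.exp (ϑ * X j) < 2 * Real.exp (ϑ ^ 2 * ℓ / 2 + ϑ * ℓ + 1 / 50) * W := by
      refine lt_of_eq_of_lt ?_ (lt_of_lt_of_eq k1 ?_)
      · rw [hP, hX]
        refine Finset.sum_congr rfl fun j _ => ?_
        simp only [one_mul, zero_mul, add_zero]
        ring
      · rw [mul_one]
    have r2 : ∑ j ∈ I, P j * Real.exp (-(ϑ * X j)) < 2 * Real.exp (ϑ ^ 2 * ℓ / 2 - ϑ * ℓ + 1 / 50) * W := by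
      refine lt_of_eq_of_lt ?_ (lt_of_lt_of_eq k2 ?_)
      · rw [hP, hX]
        refine Finset.sum_congr rfl fun j _ => ?_
        simp only [zero_mul, add_zero, neg_one_mul, mul_neg]
        ring
      · congr 3
        ring
    have r3 : ∑ j ∈ I, P j * Real.exp (ϑ * X' j) < 2 * Real.exp (ϑ ^ 2 * ℓ / 2 + 1 / 50) * W := by
      refine lt_of_eq_of_lt ?_ (lt_of_lt_of_eq k3 ?_)
      · rw [hP, hX']
        refine Finset.sum_congr rfl fun j _ => ?_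
        simp only [one_mul, zero_mul, zero_add]
        ring
      · rw [mul_zero, zero_mul, add_zero]
    have r4 : ∑ j ∈ I, P j * Real.exp (-(ϑ * X' j)) < 2 * Real.exp (ϑ ^ 2 * ℓ / 2 + 1 / 50) * W := by
      refine lt_of_eq_of_lt ?_ (lt_of_lt_of_eq k4 ?_)
      · rw [hP, hX']
        refine Finset.sum_congr rfl fun j _ => ?_
        simp only [zero_mul, zero_add, neg_one_mul, mul_neg]
        ring
      · rw [mul_zero, zero_mul, add_zero]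
    have k0' : 1 / 2 * W < ∑ j ∈ I, P j := by
      rw [hP]
      exact k0
    -- the truncated part
    have r5 : ∀ j ∈ I, P j ≤ (if |X j - ℓ| ≤ s ∧ |X' j| ≤ s then P j else 0) +
        (Real.exp (-(ϑ * (ℓ + s))) * (P j * Real.exp (ϑ * X j)) + Real.exp (ϑ * (ℓ - s)) * (P j * Real.exp (-(ϑ * X j))) +
          Real.exp (-(ϑ * s)) * (P j * Real.exp (ϑ * X' j)) + Real.exp (-(ϑ * s)) * (P j * Real.exp (-(ϑ * X' j)))) := by
      intro j hj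
      have hPj := hP0 j hj
      have e1 : Real.exp (-(ϑ * (ℓ + s))) * (P j * Real.exp (ϑ * X j)) = P j * Real.exp (ϑ * (X j - ℓ - s)) := by
        rw [mul_left_comm, ← Real.exp_add]
        congr 2
        ring
      have e2 : Real.exp (ϑ * (ℓ - s)) * (P j * Real.exp (-(ϑ * X j))) = P j * Real.exp (ϑ * (ℓ - X j - s)) := by
        rw [mul_left_comm, ← Real.exp_add]
        congr 2
        ring
      have e3 : Real.exp (-(ϑ * s)) * (P j * Real.exp (ϑ * X' j)) = P j * Real.exp (ϑ * (X' j - s)) := by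
        rw [mul_left_comm, ← Real.exp_add]
        congr 2
        ring
      have e4 : Real.exp (-(ϑ * s)) * (P j * Real.exp (-(ϑ * X' j))) = P j * Real.exp (ϑ * (-X' j - s)) := by
        rw [mul_left_comm, ← Real.exp_add]
        congr 2
        ring
      rw [e1, e2, e3, e4]
      have n1 : 0 ≤ P j * Real.exp (ϑ * (X j - ℓ - s)) := mul_nonneg hPj (Real.exp_pos _).le
      have n2 : 0 ≤ P j * Real.exp (ϑ * (ℓ - X j - s)) := mul_nonneg hPj (Real.exp_pos _).le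
      have n3 : 0 ≤ P j * Real.exp (ϑ * (X' j - s)) := mul_nonneg hPj (Real.exp_pos _).le
      have n4 : 0 ≤ P j * Real.exp (ϑ * (-X' j - s)) := mul_nonneg hPj (Real.exp_pos _).le
      by_cases hg : |X j - ℓ| ≤ s ∧ |X' j| ≤ s
      · rw [if_pos hg]
        linarith
      · rw [if_neg hg, zero_add]
        have hexp : ∀ z : ℝ, 0 ≤ z → P j ≤ P j * Real.exp (ϑ * z) := by
          intro z hz
          have := Real.one_le_exp (mul_nonneg hϑ0.le hz)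
          nlinarith
        rw [not_and_or, not_le, not_le] at hg
        rcases hg with hg | hg
        · rcases lt_abs.1 hg with hg | hg
          · have := hexp (X j - ℓ - s) (by linarith)
            linarith
          · have := hexp (ℓ - X j - s) (by linarith)
            linarith
        · rcases lt_abs.1 hg with hg | hg
          · have := hexp (X' j - s) (by linarith)
            linarith
          · have := hexp (-X' j - s) (by linarith)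
            linarith
    have r6 := Finset.sum_le_sum r5
    rw [Finset.sum_add_distrib, Finset.sum_add_distrib, Finset.sum_add_distrib, Finset.sum_add_distrib,
      ← Finset.mul_sum, ← Finset.mul_sum, ← Finset.mul_sum, ← Finset.mul_sum] at r6
    obtain ⟨z, hz⟩ : ∃ z : ℝ, z = Real.exp (ϑ ^ 2 * ℓ / 2 - ϑ * s + 1 / 50) := ⟨_, rfl⟩
    have hz1 : z ≤ 1 / 64 := by
      have g1 : z ≤ Real.exp (-5) := by
        rw [hz]
        apply Real.exp_le_exp.2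
        linarith
      have g2 : Real.exp (-5) ≤ 1 / 64 := by
        rw [Real.exp_neg, inv_eq_one_div]
        apply one_div_le_one_div_of_le (by norm_num)
        have g3 := Real.exp_one_gt_d9
        have g4 : Real.exp 5 = Real.exp 1 ^ 5 := by
          rw [← Real.exp_nat_mul]
          norm_num
        rw [g4]
        have g5 : (2.7 : ℝ) ^ 5 ≤ Real.exp 1 ^ 5 := pow_le_pow_left₀ (by norm_num) (by linarith) 5
        have g6 : (64 : ℝ) ≤ (2.7 : ℝ) ^ 5 := by norm_num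
        linarith
      exact g1.trans g2
    have hW0 : 0 < W := by rw [hWd]; exact hW
    have q1 : Real.exp (-(ϑ * (ℓ + s))) * ∑ j ∈ I, P j * Real.exp (ϑ * X j) ≤ 2 * z * W := by
      calc Real.exp (-(ϑ * (ℓ + s))) * ∑ j ∈ I, P j * Real.exp (ϑ * X j)
          ≤ Real.exp (-(ϑ * (ℓ + s))) * (2 * Real.exp (ϑ ^ 2 * ℓ / 2 + ϑ * ℓ + 1 / 50) * W) :=
            mul_le_mul_of_nonneg_left r1.le (Real.exp_pos _).le
        _ = 2 * (Real.exp (-(ϑ * (ℓ + s))) * Real.exp (ϑ ^ 2 * ℓ / 2 + ϑ * ℓ + 1 / 50)) * W := by ring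
        _ = 2 * z * W := by
            rw [← Real.exp_add, hz]
            congr 3
            ring
    have q2 : Real.exp (ϑ * (ℓ - s)) * ∑ j ∈ I, P j * Real.exp (-(ϑ * X j)) ≤ 2 * z * W := by
      calc Real.exp (ϑ * (ℓ - s)) * ∑ j ∈ I, P j * Real.exp (-(ϑ * X j))
          ≤ Real.exp (ϑ * (ℓ - s)) * (2 * Real.exp (ϑ ^ 2 * ℓ / 2 - ϑ * ℓ + 1 / 50) * W) :=
            mul_le_mul_of_nonneg_left r2.le (Real.exp_pos _).le
        _ = 2 * (Real.exp (ϑ * (ℓ - s)) * Real.exp (ϑ ^ 2 * ℓ / 2 - ϑ * ℓ + 1 / 50)) * W := by ring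
        _ = 2 * z * W := by
            rw [← Real.exp_add, hz]
            congr 3
            ring
    have q3 : Real.exp (-(ϑ * s)) * ∑ j ∈ I, P j * Real.exp (ϑ * X' j) ≤ 2 * z * W := by
      calc Real.exp (-(ϑ * s)) * ∑ j ∈ I, P j * Real.exp (ϑ * X' j)
          ≤ Real.exp (-(ϑ * s)) * (2 * Real.exp (ϑ ^ 2 * ℓ / 2 + 1 / 50) * W) :=
            mul_le_mul_of_nonneg_left r3.le (Real.exp_pos _).le
        _ = 2 * (Real.exp (-(ϑ * s)) * Real.exp (ϑ ^ 2 * ℓ / 2 + 1 / 50)) * W := by ring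
        _ = 2 * z * W := by
            rw [← Real.exp_add, hz]
            congr 3
            ring
    have q4 : Real.exp (-(ϑ * s)) * ∑ j ∈ I, P j * Real.exp (-(ϑ * X' j)) ≤ 2 * z * W := by
      calc Real.exp (-(ϑ * s)) * ∑ j ∈ I, P j * Real.exp (-(ϑ * X' j))
          ≤ Real.exp (-(ϑ * s)) * (2 * Real.exp (ϑ ^ 2 * ℓ / 2 + 1 / 50) * W) :=
            mul_le_mul_of_nonneg_left r4.le (Real.exp_pos _).le
        _ = 2 * (Real.exp (-(ϑ * s)) * Real.exp (ϑ ^ 2 * ℓ / 2 + 1 / 50)) * W := by ring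
        _ = 2 * z * W := by
            rw [← Real.exp_add, hz]
            congr 3
            ring
    have q5 : z * W ≤ 1 / 64 * W := mul_le_mul_of_nonneg_right hz1 hW0.le
    linarith
  refine (pr_mono hsub).trans ?_
  have u1 := pr_or S (fun T => (((∑ j ∈ I, w j * ∏ p ∈ S, (1 + sg T p * t j p) ≤ 1 / 2 * W) ∨
      (2 * Real.exp (ϑ ^ 2 * ℓ / 2 + ϑ * 1 * ℓ + 1 / 50) * W ≤ ∑ j ∈ I, w j * ((∏ p ∈ S, (1 + sg T p * t j p)) *
        Real.exp (ϑ * (1 * ∑ p ∈ S, sg T p * t j p + 0 * ∑ p ∈ S, sg T p * t' j p))))) ∨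
      (2 * Real.exp (ϑ ^ 2 * ℓ / 2 + ϑ * (-1) * ℓ + 1 / 50) * W ≤ ∑ j ∈ I, w j * ((∏ p ∈ S, (1 + sg T p * t j p)) *
        Real.exp (ϑ * ((-1) * ∑ p ∈ S, sg T p * t j p + 0 * ∑ p ∈ S, sg T p * t' j p))))) ∨
      (2 * Real.exp (ϑ ^ 2 * ℓ / 2 + ϑ * 0 * ℓ + 1 / 50) * W ≤ ∑ j ∈ I, w j * ((∏ p ∈ S, (1 + sg T p * t j p)) *
        Real.exp (ϑ * (0 * ∑ p ∈ S, sg T p * t j p + 1 * ∑ p ∈ S, sg T p * t' j p)))))
      (fun T => 2 * Real.exp (ϑ ^ 2 * ℓ / 2 + ϑ * 0 * ℓ + 1 / 50) * W ≤ ∑ j ∈ I, w j * ((∏ p ∈ S, (1 + sg T p * t j p)) *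
        Real.exp (ϑ * (0 * ∑ p ∈ S, sg T p * t j p + (-1) * ∑ p ∈ S, sg T p * t' j p))))
  have u2 := pr_or S (fun T => ((∑ j ∈ I, w j * ∏ p ∈ S, (1 + sg T p * t j p) ≤ 1 / 2 * W) ∨
      (2 * Real.exp (ϑ ^ 2 * ℓ / 2 + ϑ * 1 * ℓ + 1 / 50) * W ≤ ∑ j ∈ I, w j * ((∏ p ∈ S, (1 + sg T p * t j p)) *
        Real.exp (ϑ * (1 * ∑ p ∈ S, sg T p * t j p + 0 * ∑ p ∈ S, sg T p * t' j p))))) ∨
      (2 * Real.exp (ϑ ^ 2 * ℓ / 2 + ϑ * (-1) * ℓ + 1 / 50) * W ≤ ∑ j ∈ I, w j * ((∏ p ∈ S, (1 + sg T p * t j p)) *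
        Real.exp (ϑ * ((-1) * ∑ p ∈ S, sg T p * t j p + 0 * ∑ p ∈ S, sg T p * t' j p)))))
      (fun T => 2 * Real.exp (ϑ ^ 2 * ℓ / 2 + ϑ * 0 * ℓ + 1 / 50) * W ≤ ∑ j ∈ I, w j * ((∏ p ∈ S, (1 + sg T p * t j p)) *
        Real.exp (ϑ * (0 * ∑ p ∈ S, sg T p * t j p + 1 * ∑ p ∈ S, sg T p * t' j p))))
  have u3 := pr_or S (fun T => (∑ j ∈ I, w j * ∏ p ∈ S, (1 + sg T p * t j p) ≤ 1 / 2 * W) ∨
      (2 * Real.exp (ϑ ^ 2 * ℓ / 2 + ϑ * 1 * ℓ + 1 / 50) * W ≤ ∑ j ∈ I, w j * ((∏ p ∈ S, (1 + sg T p * t j p)) *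
        Real.exp (ϑ * (1 * ∑ p ∈ S, sg T p * t j p + 0 * ∑ p ∈ S, sg T p * t' j p)))))
      (fun T => 2 * Real.exp (ϑ ^ 2 * ℓ / 2 + ϑ * (-1) * ℓ + 1 / 50) * W ≤ ∑ j ∈ I, w j *
        ((∏ p ∈ S, (1 + sg T p * t j p)) *
        Real.exp (ϑ * ((-1) * ∑ p ∈ S, sg T p * t j p + 0 * ∑ p ∈ S, sg T p * t' j p))))
  have u4 := pr_or S (fun T => ∑ j ∈ I, w j * ∏ p ∈ S, (1 + sg T p * t j p) ≤ 1 / 2 * W)
      (fun T => 2 * Real.exp (ϑ ^ 2 * ℓ / 2 + ϑ * 1 * ℓ + 1 / 50) * W ≤ ∑ j ∈ I, w j * ((∏ p ∈ S, (1 + sg T p * t j p)) *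
        Real.exp (ϑ * (1 * ∑ p ∈ S, sg T p * t j p + 0 * ∑ p ∈ S, sg T p * t' j p))))
  linarith

end Pool.Agent.Helper51.EA
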