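import Pool.Agent.Helper5.RM.HC3

/-!
# Project EA, part 3 (MP_b6b996_nt), block V7, first part: one factor, and the moments of a sum of Riesz products
-/

set_option autoImplicit false

namespace Pool.Agent.Helper51.EA

open Finset Pool.Agent.Helper5.RM

/-! ### one factor -/

lemma sc96 {y : ℝ} (hy : |y| ≤ 1) : |Real.cosh y - 1 - y ^ 2 / 2| ≤ 5 / 96 * y ^ 4 ∧ |Real.sinh y - y| ≤ 2 / 9 * |y| ^ 3 := by
  have hy' : |(-y)| ≤ 1 := by rwa [abs_neg]
  constructor
  · have h1 := Real.exp_bound hy (n := 4) (by norm_num)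
    have h2 := Real.exp_bound hy' (n := 4) (by norm_num)
    simp only [Finset.sum_range_succ, Finset.sum_range_zero, Nat.factorial] at h1 h2
    push_cast at h1 h2
    rw [abs_neg] at h2
    have h4 : |y| ^ 4 = y ^ 4 := by
      rw [← abs_pow, abs_of_nonneg (by positivity)]
    rw [h4] at h1 h2
    rw [Real.cosh_eq]
    rw [abs_le] at h1 h2 ⊢
    constructor
    · linarith [h1.1, h2.1]
    · linarith [h1.2, h2.2]
  · have h1 := Real.exp_bound hy (n := 3) (by norm_num)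
    have h2 := Real.exp_bound hy' (n := 3) (by norm_num)
    simp only [Finset.sum_range_succ, Finset.sum_range_zero, Nat.factorial] at h1 h2
    push_cast at h1 h2
    rw [abs_neg] at h2
    rw [Real.sinh_eq]
    rw [abs_le] at h1 h2 ⊢
    constructor
    · linarith [h1.1, h2.2]
    · linarith [h1.2, h2.1]

/-- the amplitude of one factor -/
noncomputable def Af (x y : ℝ) : ℝ := Real.cosh y + x * Real.sinh y

/-- the new coefficient of one factor -/
noncomputable def qf (x y : ℝ) : ℝ := (Real.sinh y + x * Real.cosh y) / Af x y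

lemma factor96 (σ x y : ℝ) (hσ : σ = 1 ∨ σ = -1) (hA : Af x y ≠ 0) :
    (1 + σ * x) * Real.exp (σ * y) = Af x y * (1 + σ * qf x y) := by
  have h1 := Real.cosh_add_sinh y
  have h2 := Real.cosh_sub_sinh y
  have h3 : Af x y * (1 + σ * qf x y) = Af x y + σ * (Real.sinh y + x * Real.cosh y) := by
    unfold qf
    field_simp
  rw [h3]
  unfold Af
  rcases hσ with h | h
  · rw [h, one_mul, one_mul, ← h1]
    ring
  · rw [h, neg_one_mul, neg_one_mul, ← h2]
    ring

lemma bounds96 {x y τ : ℝ} (hτ : τ ≤ 1 / 1000) (hx : |x| ≤ τ) (hy : |y| ≤ τ) :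
    99 / 100 ≤ Af x y ∧ Af x y ≤ Real.exp (y ^ 2 / 2 + x * y + τ ^ 2 * y ^ 2) ∧
      |qf x y - (x + y)| ≤ 4 * τ ^ 2 * |y| := by
  have hτ0 : 0 ≤ τ := (abs_nonneg x).trans hx
  have hy1 : |y| ≤ 1 := by linarith
  obtain ⟨hc, hs⟩ := sc96 hy1
  have hy0 := abs_nonneg y
  have hx0 := abs_nonneg x
  have hy2 : y ^ 2 ≤ τ ^ 2 := by rw [← sq_abs]; exact pow_le_pow_left₀ hy0 hy 2
  have hτ2 : τ ^ 2 ≤ 1 / 1000000 := by nlinarith
  have hy4 : y ^ 4 ≤ τ ^ 2 * y ^ 2 := by
    have : y ^ 4 = y ^ 2 * y ^ 2 := by ring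
    rw [this]
    exact mul_le_mul_of_nonneg_right hy2 (by positivity)
  have hy3 : |y| ^ 3 ≤ τ ^ 2 * |y| := by
    have : |y| ^ 3 = y ^ 2 * |y| := by rw [← sq_abs]; ring
    rw [this]
    exact mul_le_mul_of_nonneg_right hy2 hy0
  have hcosh : |Real.cosh y - 1| ≤ 51 / 100 * y ^ 2 := by
    have h1 : |Real.cosh y - 1| ≤ |Real.cosh y - 1 - y ^ 2 / 2| + |y ^ 2 / 2| := by
      have := abs_add_le (Real.cosh y - 1 - y ^ 2 / 2) (y ^ 2 / 2)
      rwa [sub_add_cancel] at this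
    rw [abs_of_nonneg (by positivity : (0 : ℝ) ≤ y ^ 2 / 2)] at h1
    have h2 : τ ^ 2 * y ^ 2 ≤ 1 / 1000000 * y ^ 2 := mul_le_mul_of_nonneg_right hτ2 (by positivity)
    have h3 := sq_nonneg y
    linarith
  have hsinh : |Real.sinh y| ≤ 101 / 100 * |y| := by
    have h1 : |Real.sinh y| ≤ |Real.sinh y - y| + |y| := by
      have := abs_add_le (Real.sinh y - y) y
      rwa [sub_add_cancel] at this
    have h2 : τ ^ 2 * |y| ≤ 1 / 1000000 * |y| := mul_le_mul_of_nonneg_right hτ2 hy0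
    linarith
  have hA : 99 / 100 ≤ Af x y := by
    unfold Af
    have h1 := (abs_le.1 hcosh).1
    have h2 : |x * Real.sinh y| ≤ τ * (101 / 100 * |y|) := by
      rw [abs_mul]
      exact mul_le_mul hx hsinh (abs_nonneg _) hτ0
    have h3 := (abs_le.1 h2).1
    have h4 : τ * |y| ≤ τ * τ := mul_le_mul_of_nonneg_left hy hτ0
    nlinarith
  have hA0 : 0 < Af x y := by linarith
  refine ⟨hA, ?_, ?_⟩
  · have h1 : Af x y ≤ Real.exp (Af x y - 1) := by
      have := Real.add_one_le_exp (Af x y - 1)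
      linarith
    refine h1.trans (Real.exp_le_exp.2 ?_)
    unfold Af
    have h2 := (abs_le.1 hc).2
    have h3 : x * Real.sinh y ≤ x * y + τ * (2 / 9 * |y| ^ 3) := by
      have h4 : x * (Real.sinh y - y) ≤ τ * (2 / 9 * |y| ^ 3) := by
        refine (le_abs_self _).trans ?_
        rw [abs_mul]
        exact mul_le_mul hx hs (abs_nonneg _) hτ0
      linarith
    have h5 : τ * |y| ^ 3 ≤ τ ^ 2 * y ^ 2 := by
      have h6 : |y| ^ 3 = |y| * y ^ 2 := by rw [← sq_abs]; ring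
      rw [h6]
      have h7 : |y| * y ^ 2 ≤ τ * y ^ 2 := mul_le_mul_of_nonneg_right hy (by positivity)
      calc τ * (|y| * y ^ 2) ≤ τ * (τ * y ^ 2) := mul_le_mul_of_nonneg_left h7 hτ0
        _ = _ := by ring
    have h8 : 0 ≤ τ ^ 2 * y ^ 2 := by positivity
    linarith
  · have h1 : qf x y - (x + y) = ((Real.sinh y - y) - y * (Real.cosh y - 1) - x ^ 2 * Real.sinh y -
        x * y * Real.sinh y) / Af x y := by
      unfold qf
      rw [eq_div_iff hA0.ne', sub_mul, div_mul_cancel₀ _ hA0.ne']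
      unfold Af
      ring
    rw [h1, abs_div, abs_of_pos hA0, div_le_iff₀ hA0]
    have h2 : |(Real.sinh y - y) - y * (Real.cosh y - 1) - x ^ 2 * Real.sinh y - x * y * Real.sinh y| ≤
        |Real.sinh y - y| + |y * (Real.cosh y - 1)| + |x ^ 2 * Real.sinh y| + |x * y * Real.sinh y| := by
      refine (abs_sub _ _).trans ?_
      refine add_le_add_left ((abs_sub _ _).trans ?_) _
      exact add_le_add_left (abs_sub _ _) _
    have h3 : |y * (Real.cosh y - 1)| ≤ 51 / 100 * (τ ^ 2 * |y|) := by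
      rw [abs_mul]
      calc |y| * |Real.cosh y - 1| ≤ |y| * (51 / 100 * y ^ 2) := mul_le_mul_of_nonneg_left hcosh hy0
        _ = 51 / 100 * |y| ^ 3 := by
            have h6 : |y| ^ 3 = |y| * y ^ 2 := by rw [← sq_abs]; ring
            rw [h6]
            ring
        _ ≤ _ := by linarith
    have h4 : |x ^ 2 * Real.sinh y| ≤ 101 / 100 * (τ ^ 2 * |y|) := by
      rw [abs_mul, abs_of_nonneg (by positivity : (0 : ℝ) ≤ x ^ 2)]
      have h5 : x ^ 2 ≤ τ ^ 2 := by rw [← sq_abs]; exact pow_le_pow_left₀ hx0 hx 2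
      calc x ^ 2 * |Real.sinh y| ≤ τ ^ 2 * (101 / 100 * |y|) := mul_le_mul h5 hsinh (abs_nonneg _) (by positivity)
        _ = _ := by ring
    have h5 : |x * y * Real.sinh y| ≤ 101 / 100 * (τ ^ 2 * |y|) := by
      rw [abs_mul, abs_mul]
      have h6 : |x| * |y| ≤ τ * τ := mul_le_mul hx hy hy0 hτ0
      calc |x| * |y| * |Real.sinh y| ≤ τ * τ * (101 / 100 * |y|) :=
            mul_le_mul h6 hsinh (abs_nonneg _) (by positivity)
        _ = _ := by ring
    have h6 : 0 ≤ τ ^ 2 * |y| := by positivity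
    calc _ ≤ _ := h2
      _ ≤ 2 / 9 * (τ ^ 2 * |y|) + 51 / 100 * (τ ^ 2 * |y|) + 101 / 100 * (τ ^ 2 * |y|) + 101 / 100 * (τ ^ 2 * |y|) := by
          linarith
      _ ≤ 4 * τ ^ 2 * |y| * (99 / 100) := by linarith
      _ ≤ 4 * τ ^ 2 * |y| * Af x y := mul_le_mul_of_nonneg_left hA (by positivity)

/-! ### the moments of a sum of Riesz products -/

lemma prod_expand96 (S T : Finset ℕ) (q : ℕ → ℝ) :
    ∏ p ∈ S, (1 + sg T p * q p) = ∑ U ∈ S.powerset, (∏ p ∈ U, q p) * wal T U := by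
  rw [Finset.prod_one_add]
  refine Finset.sum_congr rfl fun U _ => ?_
  rw [wal, Finset.prod_mul_distrib, mul_comm]

lemma hyper_prod96 (k : ℕ) (hk : 1 ≤ k) (S : Finset ℕ) (I : Finset ℕ) (a : ℕ → ℝ) (q : ℕ → ℕ → ℝ) :
    0 ≤ ∑ j ∈ I, ∑ i ∈ I, a j * a i * (∏ p ∈ S, (1 + (2 * (k : ℝ) - 1) * (q j p * q i p)) - 1) ∧
    av S (fun T => |∑ j ∈ I, a j * ∏ p ∈ S, (1 + sg T p * q j p) - ∑ j ∈ I, a j| ^ (2 * k)) ≤
      (∑ j ∈ I, ∑ i ∈ I, a j * a i * (∏ p ∈ S, (1 + (2 * (k : ℝ) - 1) * (q j p * q i p)) - 1)) ^ k := by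
  classical
  let B : Finset ℕ → ℝ := fun U => ∑ j ∈ I, a j * ∏ p ∈ U, q j p
  have hB0 : B ∅ = ∑ j ∈ I, a j := by simp [B]
  let A : Finset ℕ → ℂ := fun U => ((B U - (if U = ∅ then B ∅ else 0) : ℝ) : ℂ)
  have h := hyper k hk S A
  have e1 : ∀ T : Finset ℕ, ‖∑ U ∈ S.powerset, A U * (wal T U : ℂ)‖ =
      |∑ j ∈ I, a j * ∏ p ∈ S, (1 + sg T p * q j p) - ∑ j ∈ I, a j| := by
    intro T
    have e2 : ∑ U ∈ S.powerset, A U * (wal T U : ℂ) =
        ((∑ j ∈ I, a j * ∏ p ∈ S, (1 + sg T p * q j p) - ∑ j ∈ I, a j : ℝ) : ℂ) := by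
      have e3 : ∑ U ∈ S.powerset, A U * (wal T U : ℂ) =
          ((∑ U ∈ S.powerset, (B U - (if U = ∅ then B ∅ else 0)) * wal T U : ℝ) : ℂ) := by
        rw [Complex.ofReal_sum]
        refine Finset.sum_congr rfl fun U _ => ?_
        simp only [A]
        rw [Complex.ofReal_mul]
      rw [e3]
      congr 1
      have e4 : ∀ U ∈ S.powerset, (B U - (if U = ∅ then B ∅ else 0)) * wal T U =
          ∑ j ∈ I, a j * ((∏ p ∈ U, q j p) * wal T U) - (if U = ∅ then B ∅ else 0) := by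
        intro U _
        have e5 : B U * wal T U = ∑ j ∈ I, a j * ((∏ p ∈ U, q j p) * wal T U) := by
          simp only [B]
          rw [Finset.sum_mul]
          exact Finset.sum_congr rfl fun j _ => by ring
        rw [sub_mul, e5]
        congr 1
        split_ifs with hU
        · rw [hU, wal_empty, mul_one]
        · rw [zero_mul]
      rw [Finset.sum_congr rfl e4, Finset.sum_sub_distrib, Finset.sum_comm, Finset.sum_ite_eq',
        if_pos (Finset.empty_mem_powerset S), hB0]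
      congr 1
      refine Finset.sum_congr rfl fun j _ => ?_
      rw [← Finset.mul_sum, prod_expand96]
    rw [e2, Complex.norm_real, Real.norm_eq_abs]
  have e6 : ∑ U ∈ S.powerset, (2 * (k : ℝ) - 1) ^ U.card * ‖A U‖ ^ 2 =
      ∑ j ∈ I, ∑ i ∈ I, a j * a i * (∏ p ∈ S, (1 + (2 * (k : ℝ) - 1) * (q j p * q i p)) - 1) := by
    have e7 : ∀ U ∈ S.powerset, (2 * (k : ℝ) - 1) ^ U.card * ‖A U‖ ^ 2 =
        ∑ j ∈ I, ∑ i ∈ I, a j * a i * ∏ p ∈ U, ((2 * (k : ℝ) - 1) * (q j p * q i p)) -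
          (if U = ∅ then ∑ j ∈ I, ∑ i ∈ I, a j * a i else 0) := by
      intro U _
      have e8 : ‖A U‖ ^ 2 = (B U - (if U = ∅ then B ∅ else 0)) ^ 2 := by
        simp only [A]
        rw [Complex.norm_real, Real.norm_eq_abs, sq_abs]
      rw [e8]
      by_cases hU : U = ∅
      · rw [if_pos hU, if_pos hU, hU]
        simp
      · rw [if_neg hU, if_neg hU, sub_zero, sub_zero]
        simp only [B]
        rw [sq, Finset.sum_mul_sum, Finset.mul_sum]
        refine Finset.sum_congr rfl fun j _ => ?_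
        rw [Finset.mul_sum]
        refine Finset.sum_congr rfl fun i _ => ?_
        rw [Finset.prod_mul_distrib, Finset.prod_mul_distrib, Finset.prod_const]
        ring
    rw [Finset.sum_congr rfl e7, Finset.sum_sub_distrib, Finset.sum_ite_eq', if_pos (Finset.empty_mem_powerset S),
      Finset.sum_comm]
    have e9 : ∀ j ∈ I, ∑ U ∈ S.powerset, ∑ i ∈ I, a j * a i * ∏ p ∈ U, ((2 * (k : ℝ) - 1) * (q j p * q i p)) =
        ∑ i ∈ I, a j * a i * ∏ p ∈ S, (1 + (2 * (k : ℝ) - 1) * (q j p * q i p)) := by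
      intro j _
      rw [Finset.sum_comm]
      refine Finset.sum_congr rfl fun i _ => ?_
      rw [← Finset.mul_sum, Finset.prod_one_add]
    rw [Finset.sum_congr rfl e9, ← Finset.sum_sub_distrib]
    refine Finset.sum_congr rfl fun j _ => ?_
    rw [← Finset.sum_sub_distrib]
    exact Finset.sum_congr rfl fun i _ => by ring
  constructor
  · rw [← e6]
    have hk1 : (1 : ℝ) ≤ k := by exact_mod_cast hk
    have hr : (0 : ℝ) ≤ 2 * (k : ℝ) - 1 := by linarith
    exact Finset.sum_nonneg fun U _ => by positivity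
  rw [e6] at h
  refine le_trans (le_of_eq ?_) h
  exact av_congr fun T _ => by rw [e1]

end Pool.Agent.Helper51.EA
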