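import Pool.Agent.Helper96.EA3.V7a

/-!
# Project EA, part 3 (MP_b6b996_nt), block V7: one step with `2k`-th moments
-/

set_option autoImplicit false

namespace Pool.Agent.Helper51.EA

open Finset Pool.Agent.Helper5.RM

/-- the difference of the products of two pairs -/
lemma pair_diff96 {τ xj yj qj xi yi qi : ℝ} (hτ0 : 0 ≤ τ) (hτ : τ ≤ 1 / 1000)
    (h1 : |qj - (xj + yj)| ≤ 4 * τ ^ 2 * |yj|) (h2 : |qi - (xi + yi)| ≤ 4 * τ ^ 2 * |yi|) :
    |qj * qi - (xj + yj) * (xi + yi)| ≤ 7 * τ ^ 2 * (xj ^ 2 + xi ^ 2 + yj ^ 2 + yi ^ 2) := by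
  obtain ⟨ej, hej⟩ : ∃ ej : ℝ, ej = qj - (xj + yj) := ⟨_, rfl⟩
  obtain ⟨ei, hei⟩ : ∃ ei : ℝ, ei = qi - (xi + yi) := ⟨_, rfl⟩
  rw [← hej] at h1
  rw [← hei] at h2
  have e1 : qj * qi - (xj + yj) * (xi + yi) = ej * (xi + yi) + (xj + yj) * ei + ej * ei := by
    rw [hej, hei]
    ring
  rw [e1]
  have hτ2 : τ ^ 2 ≤ 1 / 1000000 := by nlinarith
  have hyj := abs_nonneg yj
  have hyi := abs_nonneg yi
  have b1 : |ej * (xi + yi)| ≤ 4 * τ ^ 2 * |yj| * (|xi| + |yi|) := by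
    rw [abs_mul]
    exact mul_le_mul h1 (abs_add_le _ _) (abs_nonneg _) (by positivity)
  have b2 : |(xj + yj) * ei| ≤ (|xj| + |yj|) * (4 * τ ^ 2 * |yi|) := by
    rw [abs_mul]
    exact mul_le_mul (abs_add_le _ _) h2 (abs_nonneg _) (by positivity)
  have b3 : |ej * ei| ≤ 4 * τ ^ 2 * |yj| * (4 * τ ^ 2 * |yi|) := by
    rw [abs_mul]
    exact mul_le_mul h1 h2 (abs_nonneg _) (by positivity)
  have b4 : |ej * (xi + yi) + (xj + yj) * ei + ej * ei| ≤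
      4 * τ ^ 2 * |yj| * (|xi| + |yi|) + (|xj| + |yj|) * (4 * τ ^ 2 * |yi|) + 4 * τ ^ 2 * |yj| * (4 * τ ^ 2 * |yi|) :=
    (abs_add_le _ _).trans (add_le_add ((abs_add_le _ _).trans (add_le_add b1 b2)) b3)
  refine b4.trans ?_
  rw [← sq_abs xj, ← sq_abs xi, ← sq_abs yj, ← sq_abs yi]
  generalize |xj| = A at *
  generalize |xi| = B at *
  generalize |yj| = C at *
  generalize |yi| = D at *
  have c1 : C * B ≤ (C ^ 2 + B ^ 2) / 2 := by nlinarith [sq_nonneg (C - B)]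
  have c2 : C * D ≤ (C ^ 2 + D ^ 2) / 2 := by nlinarith [sq_nonneg (C - D)]
  have c3 : A * D ≤ (A ^ 2 + D ^ 2) / 2 := by nlinarith [sq_nonneg (A - D)]
  have c4 : 4 * τ ^ 2 * C * (4 * τ ^ 2 * D) = 16 * τ ^ 2 * τ ^ 2 * (C * D) := by ring
  have c5 : 16 * τ ^ 2 * τ ^ 2 * (C * D) ≤ τ ^ 2 * (C * D) := by
    apply mul_le_mul_of_nonneg_right _ (by positivity)
    nlinarith [sq_nonneg τ]
  have c6 : 4 * τ ^ 2 * C * (B + D) + (A + C) * (4 * τ ^ 2 * D) + 4 * τ ^ 2 * C * (4 * τ ^ 2 * D) ≤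
      τ ^ 2 * (4 * (C * B) + 9 * (C * D) + 4 * (A * D)) := by
    rw [c4]
    nlinarith
  refine c6.trans ?_
  have c7 : 4 * (C * B) + 9 * (C * D) + 4 * (A * D) ≤ 7 * (A ^ 2 + B ^ 2 + C ^ 2 + D ^ 2) := by
    nlinarith [sq_nonneg A, sq_nonneg B, sq_nonneg C, sq_nonneg D]
  calc τ ^ 2 * (4 * (C * B) + 9 * (C * D) + 4 * (A * D)) ≤ τ ^ 2 * (7 * (A ^ 2 + B ^ 2 + C ^ 2 + D ^ 2)) :=
        mul_le_mul_of_nonneg_left c7 (by positivity)
    _ = _ := by ring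

/-- the deviation of a tilted sum -/
lemma block96 (k : ℕ) (hk : 1 ≤ k) (S : Finset ℕ) (x y : ℕ → ℕ → ℝ) (I : Finset ℕ) (w : ℕ → ℝ) (nr : ℕ → ℕ → Prop)
    (M τ ℓ Wm Am : ℝ) (hw0 : ∀ j ∈ I, 0 ≤ w j) (hwm : ∀ j ∈ I, w j ≤ Wm) (hW : 0 < ∑ j ∈ I, w j)
    (hM : ∀ j ∈ I, ∀ Q ⊆ I, (∀ i ∈ Q, nr j i) → (Q.card : ℝ) ≤ M)
    (hτ0 : 0 < τ) (hτ1 : k * τ * (ℓ + 1) ≤ 1 / 1000) (hℓ : 0 ≤ ℓ)
    (hx : ∀ j ∈ I, ∀ p ∈ S, |x j p| ≤ τ) (hy : ∀ j ∈ I, ∀ p ∈ S, |y j p| ≤ τ)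
    (hx2 : ∀ j ∈ I, ∑ p ∈ S, x j p ^ 2 ≤ ℓ + τ) (hy2 : ∀ j ∈ I, ∑ p ∈ S, y j p ^ 2 ≤ ℓ + τ)
    (hf : ∀ j ∈ I, ∀ i ∈ I, ¬ nr j i → |∑ p ∈ S, (x j p + y j p) * (x i p + y i p)| ≤ 4 * τ)
    (hAm : ∀ j ∈ I, Real.exp (∑ p ∈ S, (y j p ^ 2 / 2 + x j p * y j p + τ ^ 2 * y j p ^ 2)) ≤ Am) (c : ℝ) (hc : 0 < c) :
    pr S (fun T => c * ∑ j ∈ I, w j ≤ |∑ j ∈ I, w j * ∏ p ∈ S, ((1 + sg T p * x j p) * Real.exp (sg T p * y j p)) -
      ∑ j ∈ I, w j * ∏ p ∈ S, Af (x j p) (y j p)|) ≤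
      (Am ^ 2 * (20 * k * τ + M * Wm * Real.exp (10 * k * (ℓ + 1)) / ∑ j ∈ I, w j) / c ^ 2) ^ k ∧
    ∑ j ∈ I, w j * ∏ p ∈ S, Af (x j p) (y j p) ≤ Am * ∑ j ∈ I, w j := by
  classical
  have hk1 : (1 : ℝ) ≤ k := by exact_mod_cast hk
  have hkτ : k * τ ≤ 1 / 1000 := by
    have h1 : k * τ * 1 ≤ k * τ * (ℓ + 1) := mul_le_mul_of_nonneg_left (by linarith) (by positivity)
    linarith
  have hτ : τ ≤ 1 / 1000 := by
    have h1 : 1 * τ ≤ k * τ := mul_le_mul_of_nonneg_right hk1 hτ0.le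
    linarith
  have hτℓ : τ * (ℓ + 1) ≤ 1 / 1000 := by
    have h1 : 1 * (τ * (ℓ + 1)) ≤ k * (τ * (ℓ + 1)) := mul_le_mul_of_nonneg_right hk1 (by positivity)
    linarith
  obtain ⟨j0, hj0, hj0'⟩ : ∃ j ∈ I, 0 < w j := by
    by_contra hcon
    push Not at hcon
    exact absurd hW (not_lt.2 (Finset.sum_nonpos hcon))
  have hWm : 0 ≤ Wm := (hw0 j0 hj0).trans (hwm j0 hj0)
  have hM0 : 0 ≤ M := by
    have := hM j0 hj0 ∅ (Finset.empty_subset _) (fun i hi => absurd hi (Finset.notMem_empty i))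
    simpa using this
  have hb := fun j (hj : j ∈ I) p (hp : p ∈ S) => bounds96 hτ (hx j hj p hp) (hy j hj p hp)
  let a : ℕ → ℝ := fun j => w j * ∏ p ∈ S, Af (x j p) (y j p)
  let q : ℕ → ℕ → ℝ := fun j p => qf (x j p) (y j p)
  have hprod0 : ∀ j ∈ I, 0 ≤ ∏ p ∈ S, Af (x j p) (y j p) := fun j hj =>
    Finset.prod_nonneg fun p hp => by linarith [(hb j hj p hp).1]
  have hprodA : ∀ j ∈ I, ∏ p ∈ S, Af (x j p) (y j p) ≤ Am := fun j hj => by
    refine le_trans ?_ (hAm j hj)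
    rw [Real.exp_sum]
    exact Finset.prod_le_prod (fun p hp => by linarith [(hb j hj p hp).1]) fun p hp => (hb j hj p hp).2.1
  have hAm0 : 0 ≤ Am := (hprod0 j0 hj0).trans (hprodA j0 hj0)
  have ha0 : ∀ j ∈ I, 0 ≤ a j := fun j hj => mul_nonneg (hw0 j hj) (hprod0 j hj)
  have haA : ∀ j ∈ I, a j ≤ Am * w j := fun j hj => by
    simp only [a]
    rw [mul_comm Am]
    exact mul_le_mul_of_nonneg_left (hprodA j hj) (hw0 j hj)
  -- the rewriting
  have hrw : ∀ T : Finset ℕ, ∑ j ∈ I, w j * ∏ p ∈ S, ((1 + sg T p * x j p) * Real.exp (sg T p * y j p)) =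
      ∑ j ∈ I, a j * ∏ p ∈ S, (1 + sg T p * q j p) := by
    intro T
    refine Finset.sum_congr rfl fun j hj => ?_
    simp only [a, q]
    rw [mul_assoc, ← Finset.prod_mul_distrib]
    congr 1
    refine Finset.prod_congr rfl fun p hp => ?_
    refine factor96 _ _ _ ?_ ?_
    · unfold sg
      split_ifs
      · right; rfl
      · left; rfl
    · linarith [(hb j hj p hp).1]
  -- the sums of the products
  have hq : ∀ j ∈ I, ∀ i ∈ I, |∑ p ∈ S, q j p * q i p - ∑ p ∈ S, (x j p + y j p) * (x i p + y i p)| ≤ τ := by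
    intro j hj i hi
    rw [← Finset.sum_sub_distrib]
    refine (Finset.abs_sum_le_sum_abs _ _).trans ?_
    have h1 : ∀ p ∈ S, |q j p * q i p - (x j p + y j p) * (x i p + y i p)| ≤
        7 * τ ^ 2 * (x j p ^ 2 + x i p ^ 2 + y j p ^ 2 + y i p ^ 2) := fun p hp =>
      pair_diff96 hτ0.le hτ (hb j hj p hp).2.2 (hb i hi p hp).2.2
    refine (Finset.sum_le_sum h1).trans ?_
    rw [← Finset.mul_sum, Finset.sum_add_distrib, Finset.sum_add_distrib, Finset.sum_add_distrib]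
    have g1 := hx2 j hj
    have g2 := hx2 i hi
    have g3 := hy2 j hj
    have g4 := hy2 i hi
    calc 7 * τ ^ 2 * (∑ p ∈ S, x j p ^ 2 + ∑ p ∈ S, x i p ^ 2 + ∑ p ∈ S, y j p ^ 2 + ∑ p ∈ S, y i p ^ 2)
        ≤ 7 * τ ^ 2 * (4 * (ℓ + 1)) := mul_le_mul_of_nonneg_left (by linarith) (by positivity)
      _ = 28 * τ * (τ * (ℓ + 1)) := by ring
      _ ≤ 28 * τ * (1 / 1000) := mul_le_mul_of_nonneg_left hτℓ (by positivity)
      _ ≤ τ := by linarith
  have hqn : ∀ j ∈ I, ∀ i ∈ I, ¬ nr j i → ∑ p ∈ S, q j p * q i p ≤ 5 * τ := by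
    intro j hj i hi hn
    have h1 := (abs_le.1 (hq j hj i hi)).2
    have h2 := (abs_le.1 (hf j hj i hi hn)).2
    linarith
  have hqa : ∀ j ∈ I, ∀ i ∈ I, ∑ p ∈ S, q j p * q i p ≤ 5 * (ℓ + 1) := by
    intro j hj i hi
    have h1 := (abs_le.1 (hq j hj i hi)).2
    have h2 : ∑ p ∈ S, (x j p + y j p) * (x i p + y i p) ≤
        ∑ p ∈ S, (x j p ^ 2 + x i p ^ 2 + y j p ^ 2 + y i p ^ 2) := by
      refine Finset.sum_le_sum fun p _ => ?_
      nlinarith [sq_nonneg (x j p + y j p - (x i p + y i p)), sq_nonneg (x j p - y j p), sq_nonneg (x i p - y i p)]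
    rw [Finset.sum_add_distrib, Finset.sum_add_distrib, Finset.sum_add_distrib] at h2
    have g1 := hx2 j hj
    have g2 := hx2 i hi
    have g3 := hy2 j hj
    have g4 := hy2 i hi
    linarith
  -- the products
  have hqabs : ∀ j ∈ I, ∀ p ∈ S, |q j p| ≤ 3 * τ := by
    intro j hj p hp
    have h1 := (hb j hj p hp).2.2
    have h2 := hx j hj p hp
    have h3 := hy j hj p hp
    have h4 : |q j p| ≤ |q j p - (x j p + y j p)| + (|x j p| + |y j p|) := by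
      have := abs_add_le (q j p - (x j p + y j p)) (x j p + y j p)
      rw [sub_add_cancel] at this
      exact this.trans (add_le_add_right (abs_add_le _ _) _)
    have h5 : 4 * τ ^ 2 * |y j p| ≤ τ := by
      calc 4 * τ ^ 2 * |y j p| ≤ 4 * τ ^ 2 * τ := mul_le_mul_of_nonneg_left h3 (by positivity)
        _ = τ * (4 * τ ^ 2) := by ring
        _ ≤ τ * 1 := mul_le_mul_of_nonneg_left (by nlinarith) hτ0.le
        _ = τ := mul_one τ
    linarith
  have hr0 : (0 : ℝ) ≤ 2 * (k : ℝ) - 1 := by linarith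
  have hprod : ∀ j ∈ I, ∀ i ∈ I, ∏ p ∈ S, (1 + (2 * (k : ℝ) - 1) * (q j p * q i p)) ≤
      Real.exp ((2 * (k : ℝ) - 1) * ∑ p ∈ S, q j p * q i p) := by
    intro j hj i hi
    rw [Finset.mul_sum, Real.exp_sum]
    refine Finset.prod_le_prod (fun p hp => ?_) fun p hp => ?_
    · have h1 : |q j p * q i p| ≤ 3 * τ * (3 * τ) := by
        rw [abs_mul]
        exact mul_le_mul (hqabs j hj p hp) (hqabs i hi p hp) (abs_nonneg _) (by positivity)
      have h2 := (abs_le.1 h1).1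
      have h3 : (2 * (k : ℝ) - 1) * (3 * τ * (3 * τ)) ≤ 1 := by
        calc (2 * (k : ℝ) - 1) * (3 * τ * (3 * τ)) ≤ 2 * k * (3 * τ * (3 * τ)) :=
              mul_le_mul_of_nonneg_right (by linarith) (by positivity)
          _ = 18 * (k * τ) * τ := by ring
          _ ≤ 18 * (1 / 1000) * (1 / 1000) := by
              apply mul_le_mul _ hτ hτ0.le (by norm_num)
              linarith
          _ ≤ 1 := by norm_num
      have h4 : (2 * (k : ℝ) - 1) * (-(3 * τ * (3 * τ))) ≤ (2 * (k : ℝ) - 1) * (q j p * q i p) :=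
        mul_le_mul_of_nonneg_left h2 hr0
      linarith
    · have := Real.add_one_le_exp ((2 * (k : ℝ) - 1) * (q j p * q i p))
      linarith
  obtain ⟨ee, hee⟩ : ∃ ee : ℝ, ee = Real.exp (10 * k * (ℓ + 1)) := ⟨_, rfl⟩
  have hee0 : 0 < ee := by rw [hee]; exact Real.exp_pos _
  obtain ⟨W, hWd⟩ : ∃ W : ℝ, W = ∑ j ∈ I, w j := ⟨_, rfl⟩
  have hW0 : 0 < W := by rw [hWd]; exact hW
  -- each term
  have hT : ∀ j ∈ I, ∀ i ∈ I, ∏ p ∈ S, (1 + (2 * (k : ℝ) - 1) * (q j p * q i p)) - 1 ≤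
      20 * k * τ + (if nr j i then ee else 0) := by
    intro j hj i hi
    by_cases hn : nr j i
    · rw [if_pos hn]
      have h2 := hprod j hj i hi
      have h3 : Real.exp ((2 * (k : ℝ) - 1) * ∑ p ∈ S, q j p * q i p) ≤ ee := by
        rw [hee]
        apply Real.exp_le_exp.2
        calc (2 * (k : ℝ) - 1) * ∑ p ∈ S, q j p * q i p ≤ (2 * (k : ℝ) - 1) * (5 * (ℓ + 1)) :=
              mul_le_mul_of_nonneg_left (hqa j hj i hi) hr0
          _ ≤ 10 * k * (ℓ + 1) := by nlinarith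
      have h4 : 0 ≤ 20 * k * τ := by positivity
      linarith
    · rw [if_neg hn, add_zero]
      have h2 := hprod j hj i hi
      have h3 : Real.exp ((2 * (k : ℝ) - 1) * ∑ p ∈ S, q j p * q i p) ≤ Real.exp (10 * k * τ) := by
        apply Real.exp_le_exp.2
        calc (2 * (k : ℝ) - 1) * ∑ p ∈ S, q j p * q i p ≤ (2 * (k : ℝ) - 1) * (5 * τ) :=
              mul_le_mul_of_nonneg_left (hqn j hj i hi hn) hr0
          _ ≤ 10 * k * τ := by nlinarith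
      have h4 : |10 * (k : ℝ) * τ| ≤ 1 := by
        rw [abs_of_nonneg (by positivity)]
        linarith
      have h5 := (abs_le.1 (Real.abs_exp_sub_one_le h4)).2
      rw [abs_of_nonneg (by positivity : (0 : ℝ) ≤ 10 * k * τ)] at h5
      linarith
  have hB0 : ∀ j i, 0 ≤ 20 * k * τ + (if nr j i then ee else 0) := by
    intro j i
    have h4 : 0 ≤ 20 * k * τ := by positivity
    split_ifs <;> linarith
  have hrow : ∀ j ∈ I, ∑ i ∈ I, w i * (20 * k * τ + (if nr j i then ee else 0)) ≤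
      W * (20 * k * τ) + M * (Wm * ee) := by
    intro j hj
    have h1 : ∀ i ∈ I, w i * (20 * k * τ + (if nr j i then ee else 0)) ≤
        w i * (20 * k * τ) + (if nr j i then Wm * ee else 0) := by
      intro i hi
      rw [mul_add]
      apply add_le_add_right
      split_ifs
      · exact mul_le_mul_of_nonneg_right (hwm i hi) hee0.le
      · rw [mul_zero]
    refine (Finset.sum_le_sum h1).trans ?_
    rw [Finset.sum_add_distrib, ← Finset.sum_mul, ← hWd]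
    apply add_le_add_right
    rw [← Finset.sum_filter, Finset.sum_const, nsmul_eq_mul]
    apply mul_le_mul_of_nonneg_right _ (by positivity)
    exact hM j hj _ (Finset.filter_subset _ _) fun i hi => (Finset.mem_filter.1 hi).2
  obtain ⟨E, hE⟩ : ∃ E : ℝ, E = 20 * k * τ + M * Wm * ee / W := ⟨_, rfl⟩
  have hE0 : 0 ≤ E := by rw [hE]; positivity
  -- the double sum
  have hdbl : ∑ j ∈ I, ∑ i ∈ I, a j * a i * (∏ p ∈ S, (1 + (2 * (k : ℝ) - 1) * (q j p * q i p)) - 1) ≤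
      Am ^ 2 * W ^ 2 * E := by
    have h1 : ∀ j ∈ I, ∑ i ∈ I, a j * a i * (∏ p ∈ S, (1 + (2 * (k : ℝ) - 1) * (q j p * q i p)) - 1) ≤
        Am ^ 2 * w j * (W * (20 * k * τ) + M * (Wm * ee)) := by
      intro j hj
      have h2 : ∀ i ∈ I, a j * a i * (∏ p ∈ S, (1 + (2 * (k : ℝ) - 1) * (q j p * q i p)) - 1) ≤
          Am ^ 2 * w j * (w i * (20 * k * τ + (if nr j i then ee else 0))) := by
        intro i hi
        calc a j * a i * (∏ p ∈ S, (1 + (2 * (k : ℝ) - 1) * (q j p * q i p)) - 1)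
            ≤ a j * a i * (20 * k * τ + (if nr j i then ee else 0)) :=
              mul_le_mul_of_nonneg_left (hT j hj i hi) (mul_nonneg (ha0 j hj) (ha0 i hi))
          _ ≤ (Am * w j) * (Am * w i) * (20 * k * τ + (if nr j i then ee else 0)) := by
              apply mul_le_mul_of_nonneg_right _ (hB0 j i)
              exact mul_le_mul (haA j hj) (haA i hi) (ha0 i hi) (mul_nonneg hAm0 (hw0 j hj))
          _ = _ := by ring
      refine (Finset.sum_le_sum h2).trans ?_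
      rw [← Finset.mul_sum]
      exact mul_le_mul_of_nonneg_left (hrow j hj) (mul_nonneg (by positivity) (hw0 j hj))
    refine (Finset.sum_le_sum h1).trans ?_
    rw [← Finset.sum_mul, ← Finset.mul_sum, ← hWd]
    apply le_of_eq
    rw [hE]
    field_simp
  have hfin := hyper_prod96 k hk S I a q
  obtain ⟨hf0, hf1⟩ := hfin
  have hmom : av S (fun T => |∑ j ∈ I, a j * ∏ p ∈ S, (1 + sg T p * q j p) - ∑ j ∈ I, a j| ^ (2 * k)) ≤
      (Am ^ 2 * W ^ 2 * E) ^ k := hf1.trans (pow_le_pow_left₀ hf0 hdbl k)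
  constructor
  · have h1 := markov_pow (S := S) (F := fun T => |∑ j ∈ I, a j * ∏ p ∈ S, (1 + sg T p * q j p) - ∑ j ∈ I, a j|)
      (c := c * W) (2 * k) (fun T _ => abs_nonneg _) (by positivity) hmom
    have h2 : (Am ^ 2 * W ^ 2 * E) ^ k / (c * W) ^ (2 * k) = (Am ^ 2 * E / c ^ 2) ^ k := by
      rw [pow_mul, ← div_pow]
      congr 1
      field_simp
    rw [h2] at h1
    rw [← hWd, ← hee, ← hE]
    refine le_trans (le_of_eq ?_) h1
    congr 1
    funext T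
    rw [hrw T]
  · rw [Finset.mul_sum]
    exact Finset.sum_le_sum haA

end Pool.Agent.Helper51.EA
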