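import Pool.Agent.Helper96.EA3.V7b

/-!
# Project EA, part 3 (MP_b6b996_nt), block V7: one step with `2k`-th moments
-/

set_option autoImplicit false

namespace Pool.Agent.Helper51.EA

open Finset Pool.Agent.Helper5.RM

/-- the tilted sums in the directions `(α, β)`, `|α| + |β| ≤ 1` -/
lemma tilt96 (k : ℕ) (hk : 1 ≤ k) (S : Finset ℕ) (t t' : ℕ → ℕ → ℝ) (I : Finset ℕ) (w : ℕ → ℝ) (nr : ℕ → ℕ → Prop) (M : ℝ)
    (τ ℓ ϑ Wm : ℝ) (hw0 : ∀ j ∈ I, 0 ≤ w j) (hwm : ∀ j ∈ I, w j ≤ Wm) (hW : 0 < ∑ j ∈ I, w j)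
    (hM : ∀ j ∈ I, ∀ Q ⊆ I, (∀ i ∈ Q, nr j i) → (Q.card : ℝ) ≤ M)
    (hτ0 : 0 < τ) (hτ1 : k * τ * (ℓ + 1) ≤ 1 / 1000) (hℓ : 0 ≤ ℓ)
    (ht : ∀ j ∈ I, ∀ p ∈ S, |t j p| ≤ τ ∧ |t' j p| ≤ τ)
    (hv : ∀ j ∈ I, |∑ p ∈ S, t j p ^ 2 - ℓ| ≤ τ ∧ |∑ p ∈ S, t' j p ^ 2 - ℓ| ≤ τ ∧ |∑ p ∈ S, t j p * t' j p| ≤ τ)
    (hf : ∀ j ∈ I, ∀ i ∈ I, ¬ nr j i → |∑ p ∈ S, t j p * t i p| ≤ τ ∧ |∑ p ∈ S, t j p * t' i p| ≤ τ ∧
      |∑ p ∈ S, t' j p * t i p| ≤ τ ∧ |∑ p ∈ S, t' j p * t' i p| ≤ τ)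
    (hϑ0 : 0 < ϑ) (hϑ1 : ϑ ≤ 1) (α β : ℝ) (hαβ : |α| + |β| ≤ 1) :
    pr S (fun T => 2 * Real.exp (ϑ ^ 2 * ℓ / 2 + ϑ * α * ℓ + 1 / 50) * ∑ j ∈ I, w j ≤
      ∑ j ∈ I, w j * ((∏ p ∈ S, (1 + sg T p * t j p)) *
        Real.exp (ϑ * (α * ∑ p ∈ S, sg T p * t j p + β * ∑ p ∈ S, sg T p * t' j p)))) ≤
      (20 * k * τ + M * Wm * Real.exp (10 * k * (ℓ + 1)) / ∑ j ∈ I, w j) ^ k := by
  have hk1 : (1 : ℝ) ≤ k := by exact_mod_cast hk
  have hkτ : k * τ ≤ 1 / 1000 := by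
    have h1 : k * τ * 1 ≤ k * τ * (ℓ + 1) := mul_le_mul_of_nonneg_left (by linarith) (by positivity)
    linarith
  have hτ : τ ≤ 1 / 1000 := by
    have h1 : 1 * τ ≤ k * τ := mul_le_mul_of_nonneg_right hk1 hτ0.le
    linarith
  have hτℓ : τ * (ℓ + 1) ≤ 1 / 1000 := by
    have h1 : 1 * (τ * (ℓ + 1)) ≤ k * (τ * (ℓ + 1)) := mul_le_mul_of_nonneg_right hk1 (by positivity)
    linarith
  have hα0 := abs_nonneg α
  have hβ0 := abs_nonneg β
  have hα1 : |α| ≤ 1 := by linarith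
  have hβ1 : |β| ≤ 1 := by linarith
  -- the square of the combination
  have hsq : ∀ j ∈ I, ∑ p ∈ S, (α * t j p + β * t' j p) ^ 2 ≤ ℓ + τ := by
    intro j hj
    obtain ⟨h1, h2, _⟩ := hv j hj
    have h3 : ∑ p ∈ S, (α * t j p + β * t' j p) ^ 2 ≤ |α| * ∑ p ∈ S, t j p ^ 2 + |β| * ∑ p ∈ S, t' j p ^ 2 := by
      rw [Finset.mul_sum, Finset.mul_sum, ← Finset.sum_add_distrib]
      refine Finset.sum_le_sum fun p _ => ?_
      have h4 : (α * t j p + β * t' j p) ^ 2 ≤ (|α| * |t j p| + |β| * |t' j p|) ^ 2 := by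
        rw [← sq_abs (α * t j p + β * t' j p)]
        apply pow_le_pow_left₀ (abs_nonneg _)
        refine (abs_add_le _ _).trans ?_
        rw [abs_mul, abs_mul]
      refine h4.trans ?_
      rw [← sq_abs (t j p), ← sq_abs (t' j p)]
      generalize |t j p| = A
      generalize |t' j p| = B
      generalize |α| = u at *
      generalize |β| = v at *
      have h5 : (u * A + v * B) ^ 2 ≤ (u + v) * (u * A ^ 2 + v * B ^ 2) := by
        nlinarith [mul_nonneg (mul_nonneg hα0 hβ0) (sq_nonneg (A - B))]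
      refine h5.trans ?_
      have h6 : 0 ≤ u * A ^ 2 + v * B ^ 2 := by positivity
      nlinarith
    have h4 := (abs_le.1 h1).2
    have h5 := (abs_le.1 h2).2
    have h6 : |α| * ∑ p ∈ S, t j p ^ 2 ≤ |α| * (ℓ + τ) := mul_le_mul_of_nonneg_left (by linarith) hα0
    have h7 : |β| * ∑ p ∈ S, t' j p ^ 2 ≤ |β| * (ℓ + τ) := mul_le_mul_of_nonneg_left (by linarith) hβ0
    have h8 : (|α| + |β|) * (ℓ + τ) ≤ 1 * (ℓ + τ) := mul_le_mul_of_nonneg_right hαβ (by linarith)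
    linarith
  have hϑ2 : ϑ ^ 2 ≤ 1 := by nlinarith
  obtain ⟨Am, hAm⟩ : ∃ Am : ℝ, Am = Real.exp (ϑ ^ 2 * ℓ / 2 + ϑ * α * ℓ + 1 / 50) := ⟨_, rfl⟩
  have hAm0 : 0 < Am := by rw [hAm]; exact Real.exp_pos _
  obtain ⟨h1, h2⟩ := block96 k hk S t (fun j p => ϑ * (α * t j p + β * t' j p)) I w nr M τ ℓ Wm Am hw0 hwm hW hM hτ0 hτ1 hℓ
    (fun j hj p hp => (ht j hj p hp).1)
    (fun j hj p hp => by
      obtain ⟨g1, g2⟩ := ht j hj p hp
      rw [abs_mul, abs_of_pos hϑ0]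
      have g3 : |α * t j p + β * t' j p| ≤ |α| * τ + |β| * τ := by
        refine (abs_add_le _ _).trans ?_
        rw [abs_mul, abs_mul]
        exact add_le_add (mul_le_mul_of_nonneg_left g1 hα0) (mul_le_mul_of_nonneg_left g2 hβ0)
      have g4 : |α| * τ + |β| * τ ≤ τ := by nlinarith
      calc ϑ * |α * t j p + β * t' j p| ≤ 1 * τ := mul_le_mul hϑ1 (g3.trans g4) (abs_nonneg _) (by norm_num)
        _ = τ := one_mul _)
    (fun j hj => by
      have := (abs_le.1 (hv j hj).1).2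
      linarith)
    (fun j hj => by
      have g1 := hsq j hj
      have g2 : ∀ p ∈ S, (ϑ * (α * t j p + β * t' j p)) ^ 2 ≤ (α * t j p + β * t' j p) ^ 2 := by
        intro p _
        rw [mul_pow]
        have : 0 ≤ (α * t j p + β * t' j p) ^ 2 := sq_nonneg _
        nlinarith
      exact (Finset.sum_le_sum g2).trans g1)
    (fun j hj i hi hn => by
      obtain ⟨g1, g2, g3, g4⟩ := hf j hj i hi hn
      have e1 : ∑ p ∈ S, (t j p + ϑ * (α * t j p + β * t' j p)) * (t i p + ϑ * (α * t i p + β * t' i p)) =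
          (1 + ϑ * α) ^ 2 * ∑ p ∈ S, t j p * t i p + (1 + ϑ * α) * (ϑ * β) * ∑ p ∈ S, t j p * t' i p +
          (1 + ϑ * α) * (ϑ * β) * ∑ p ∈ S, t' j p * t i p + (ϑ * β) ^ 2 * ∑ p ∈ S, t' j p * t' i p := by
        rw [Finset.mul_sum, Finset.mul_sum, Finset.mul_sum, Finset.mul_sum, ← Finset.sum_add_distrib,
          ← Finset.sum_add_distrib, ← Finset.sum_add_distrib]
        exact Finset.sum_congr rfl fun p _ => by ring
      rw [e1]
      generalize ∑ p ∈ S, t j p * t i p = A1 at *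
      generalize ∑ p ∈ S, t j p * t' i p = A2 at *
      generalize ∑ p ∈ S, t' j p * t i p = A3 at *
      generalize ∑ p ∈ S, t' j p * t' i p = A4 at *
      obtain ⟨u, hu⟩ : ∃ u : ℝ, u = |1 + ϑ * α| := ⟨_, rfl⟩
      obtain ⟨v, hv'⟩ : ∃ v : ℝ, v = |ϑ * β| := ⟨_, rfl⟩
      have hu0 : 0 ≤ u := by rw [hu]; exact abs_nonneg _
      have hv0 : 0 ≤ v := by rw [hv']; exact abs_nonneg _
      have huv : u + v ≤ 2 := by
        have k1 : u ≤ 1 + ϑ * |α| := by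
          rw [hu]
          refine (abs_add_le _ _).trans ?_
          rw [abs_one, abs_mul, abs_of_pos hϑ0]
        have k2 : v = ϑ * |β| := by rw [hv', abs_mul, abs_of_pos hϑ0]
        have k3 : ϑ * (|α| + |β|) ≤ 1 * 1 := mul_le_mul hϑ1 hαβ (by linarith) (by norm_num)
        linarith
      have b1 : |(1 + ϑ * α) ^ 2 * A1| ≤ u ^ 2 * τ := by
        rw [abs_mul, abs_pow, ← hu]
        exact mul_le_mul_of_nonneg_left g1 (by positivity)
      have b2 : |(1 + ϑ * α) * (ϑ * β) * A2| ≤ u * v * τ := by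
        rw [abs_mul, abs_mul, ← hu, ← hv']
        exact mul_le_mul_of_nonneg_left g2 (by positivity)
      have b3 : |(1 + ϑ * α) * (ϑ * β) * A3| ≤ u * v * τ := by
        rw [abs_mul, abs_mul, ← hu, ← hv']
        exact mul_le_mul_of_nonneg_left g3 (by positivity)
      have b4 : |(ϑ * β) ^ 2 * A4| ≤ v ^ 2 * τ := by
        rw [abs_mul, abs_pow, ← hv']
        exact mul_le_mul_of_nonneg_left g4 (by positivity)
      refine (abs_add_le _ _).trans ((add_le_add ((abs_add_le _ _).trans (add_le_add ((abs_add_le _ _).trans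
        (add_le_add b1 b2)) b3)) b4).trans ?_)
      have b5 : u ^ 2 * τ + u * v * τ + u * v * τ + v ^ 2 * τ = (u + v) ^ 2 * τ := by ring
      rw [b5]
      apply mul_le_mul_of_nonneg_right _ hτ0.le
      nlinarith)
    (fun j hj => by
      rw [hAm]
      apply Real.exp_le_exp.2
      obtain ⟨g1, g2, g3⟩ := hv j hj
      have g4 := hsq j hj
      have e1 : ∑ p ∈ S, ((ϑ * (α * t j p + β * t' j p)) ^ 2 / 2 + t j p * (ϑ * (α * t j p + β * t' j p)) +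
          τ ^ 2 * (ϑ * (α * t j p + β * t' j p)) ^ 2) =
          ϑ ^ 2 * (1 / 2 + τ ^ 2) * ∑ p ∈ S, (α * t j p + β * t' j p) ^ 2 +
            (ϑ * α * ∑ p ∈ S, t j p ^ 2 + ϑ * β * ∑ p ∈ S, t j p * t' j p) := by
        rw [Finset.mul_sum, Finset.mul_sum, Finset.mul_sum, ← Finset.sum_add_distrib, ← Finset.sum_add_distrib]
        exact Finset.sum_congr rfl fun p _ => by ring
      rw [e1]
      generalize ∑ p ∈ S, (α * t j p + β * t' j p) ^ 2 = B1 at *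
      generalize ∑ p ∈ S, t j p ^ 2 = B2 at *
      generalize ∑ p ∈ S, t j p * t' j p = B3 at *
      have c1 : ϑ ^ 2 * (1 / 2 + τ ^ 2) * B1 ≤ ϑ ^ 2 * (1 / 2 + τ ^ 2) * (ℓ + τ) :=
        mul_le_mul_of_nonneg_left g4 (by positivity)
      have c2 : ϑ ^ 2 * (1 / 2 + τ ^ 2) * (ℓ + τ) ≤ ϑ ^ 2 * ℓ / 2 + (τ / 2 + τ * (τ * (ℓ + 1))) := by
        have k1 : ϑ ^ 2 * (τ / 2 + τ * (τ * (ℓ + τ))) ≤ 1 * (τ / 2 + τ * (τ * (ℓ + τ))) :=
          mul_le_mul_of_nonneg_right hϑ2 (by positivity)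
        have k2 : τ * (τ * (ℓ + τ)) ≤ τ * (τ * (ℓ + 1)) :=
          mul_le_mul_of_nonneg_left (mul_le_mul_of_nonneg_left (by linarith) hτ0.le) hτ0.le
        have k3 : ϑ ^ 2 * (1 / 2 + τ ^ 2) * (ℓ + τ) = ϑ ^ 2 * ℓ / 2 + ϑ ^ 2 * (τ / 2 + τ * (τ * (ℓ + τ))) := by ring
        rw [k3]
        linarith
      have c3 : ϑ * α * B2 ≤ ϑ * α * ℓ + |α| * τ := by
        have k1 : ϑ * α * (B2 - ℓ) ≤ |α| * τ := by
          refine (le_abs_self _).trans ?_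
          rw [abs_mul, abs_mul, abs_of_pos hϑ0]
          apply mul_le_mul _ g1 (abs_nonneg _) hα0
          nlinarith
        linarith
      have c4 : ϑ * β * B3 ≤ |β| * τ := by
        refine (le_abs_self _).trans ?_
        rw [abs_mul, abs_mul, abs_of_pos hϑ0]
        apply mul_le_mul _ g3 (abs_nonneg _) hβ0
        nlinarith
      have c5 : |α| * τ + |β| * τ ≤ τ := by nlinarith
      have c6 : τ * (τ * (ℓ + 1)) ≤ τ * (1 / 1000) := mul_le_mul_of_nonneg_left hτℓ hτ0.le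
      linarith) Am hAm0
  have e1 : Am ^ 2 * (20 * k * τ + M * Wm * Real.exp (10 * k * (ℓ + 1)) / ∑ j ∈ I, w j) / Am ^ 2 =
      20 * k * τ + M * Wm * Real.exp (10 * k * (ℓ + 1)) / ∑ j ∈ I, w j := by
    rw [mul_comm, mul_div_assoc, div_self (by positivity), mul_one]
  rw [e1] at h1
  rw [← hAm]
  refine le_trans (pr_mono fun T _ hT => ?_) h1
  have e2 : ∑ j ∈ I, w j * ∏ p ∈ S, ((1 + sg T p * t j p) * Real.exp (sg T p * (ϑ * (α * t j p + β * t' j p)))) =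
      ∑ j ∈ I, w j * ((∏ p ∈ S, (1 + sg T p * t j p)) *
        Real.exp (ϑ * (α * ∑ p ∈ S, sg T p * t j p + β * ∑ p ∈ S, sg T p * t' j p))) := by
    refine Finset.sum_congr rfl fun j _ => ?_
    rw [Finset.prod_mul_distrib, ← Real.exp_sum]
    congr 3
    rw [Finset.mul_sum, Finset.mul_sum, ← Finset.sum_add_distrib, Finset.mul_sum]
    exact Finset.sum_congr rfl fun p _ => by ring
  rw [e2]
  refine le_trans ?_ (le_abs_self _)
  linarith

end Pool.Agent.Helper51.EA
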